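import Mathlib
import Pool.Agent.H24.Lw.All3

/-!
# All powers of an abelian variety: a few Hodge classes of codimension at most half of the dimension

Let `X` be a complex abelian variety of dimension `g`. The powers `X ^ k` have Hodge classes of
arbitrarily high codimension, and exotic ones may occur in high codimension.

**Theorem.** Let `p ≥ 2` be an integer with `2 p + 1 ≥ g`; if the center of the endomorphism algebra
of `X` is not totally real assume that every subspace of the tangent space of `X` on which the center
acts by scalars, not all of them real, has dimension at most `p`. Then every Hodge class on every
power `X ^ k` (and on every direct factor of such a power) is obtained by linear combinations, cup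
products, pull-backs along homomorphisms and push-forwards along projections from

* divisor classes,
* Hodge classes of codimension at most `p` on the square `X ^ 2`,
* Hodge classes of codimension at most two on the fourth power `X ^ 4`,
* and, only if the center is not totally real, Hodge classes of codimension at most `p` on the
  products `X ^ j × C` with `j ≤ 2 p` and `C` an abelian variety of CM type.

So, if `X` has no factors of type IV, the Hodge conjecture for `X ^ 2` in codimension at most
`max (2, ⌊g / 2⌋)` and for `X ^ 4` in codimension two implies the Hodge conjecture for all powers of
`X` in all codimensions.

The proof. Let `𝔤` be the Lie algebra of the Hodge group of `X`, `V = H_1(X, ℂ)`, `dim V = 2 g`.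

1. By positivity, a system of Hodge tensors which is stable under products and contractions contains
   all the Hodge tensors which are fixed by the elements `u` of `GL(V)` that fix the system. Let `u`
   fix the given system. Since the Casimir operator of `𝔤` on `V ⊗ V` is given by Hodge classes of
   codimension two on `X ^ 4`, it normalises `𝔤`.
2. `𝔤` is generated by the involutions `h` (the conjugates of the Hodge operator), hence all weights
   of `V` are minuscule. Suppose that `u` induces on `𝔤` an automorphism which preserves a Cartan
   algebra and a Weyl chamber but which is not the identity. One finds a representation `W` in `V` and
   a path of simple roots connecting two simple roots in the same orbit of the automorphism; the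
   exterior product `ω` of a chain of `k ≤ g / 2` weight vectors is a highest weight vector which is not
   preserved by `u`. The projection onto the `𝔤`-module generated by `ω` is alternating on both sides,
   so it is a Hodge class of codimension `k` on `X ^ 2`, and it is preserved by `u`, a contradiction. So
   `u` is a product of an element of the Hodge group and an element `z` which commutes with `𝔤` and acts
   as a scalar on each irreducible representation in `V`.
3. If the center is totally real then all irreducible representations in `V` are selfdual, the
   relations between the highest weights modulo the root lattice are generated by sums over sets of
   different weights, at most `g` in number, and each of them is realised by an alternating invariant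
   tensor of `𝔤`, that is by a Hodge class of codimension at most `g / 2` on `X` (for minuscule weights
   with sum in the root lattice the tensor product of the representations contains an invariant).
4. In general the relations are generated by relations of cost at most `2 p + 1`, where the cost is the
   degree plus the absolute value of the eigenvalue of the involutions `h` on the corresponding
   semi-invariant of `𝔤`; the cost is even, so it is at most `2 p`. Such a semi-invariant becomes a
   Hodge class of codimension at most `p` on `X ^ j × C`, with values in a CM field, after the product
   with coordinates of abelian varieties of CM type.
-/

namespace Pool.Agent.H24.Keep.PowersFromTheSquare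

open Pool.Agent.H204R3.CM
open Pool.Agent.Q60.D3 (AV IsHom)
open Pool.Agent.Q180.VA (pw RealCenter)
open Pool.Agent.H24.Lin (NonrealBound)
open Pool.Agent.H24.Lw (GenX)

/-- **All powers of all abelian varieties.** `Y` is a direct factor of the power `X ^ k`. -/
theorem result (X : AV) (p : ℕ) (hp : 2 ≤ p) (hg : Module.finrank ℂ X.T ≤ 2 * p + 1)
    (hX : ¬ RealCenter X → NonrealBound X p) {Y : AV} (k : ℕ) (s : Y.H →ₗ[ℚ] (pw X k).H)
    (q : (pw X k).H →ₗ[ℚ] Y.H) (hs : IsHom Y (pw X k) s) (hq : IsHom (pw X k) Y q)
    (hqs : ∀ v, q (s v) = v) {κ : Type} [Finite κ] (f : Y.H [⋀^κ]→ₗ[ℚ] ℚ) :
    IsHodge Y.per f ↔ GenX X p Y κ f :=
  Pool.Agent.H24.Lw.main3 X p hp hg hX k s q hs hq hqs f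

end Pool.Agent.H24.Keep.PowersFromTheSquare
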